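import Pool.Agent.Lib.TWLM.LemM

/-!
# TANK W, Lemma M for a closed field of transcendental type

`exists_fbr`: the Hasse derivatives of the polynomials in `w` over `C` extend to the closure of
`C(w)`, `w` of transcendental type over `C` with radius `ρ`.
`lemM_poly`: Lemma M for the closure of `C(w)`, polynomial form.
-/

set_option autoImplicit false

open Polynomial Finset

namespace Pool.Agent.TWLM

open Pool.Agent.H15JM (RVal)
open Pool.Agent.TWM

universe u

variable {k Ω : Type u} [Field k] [Field Ω] [Algebra k Ω] {v : RVal Ω}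
  {C : IntermediateField k Ω} {w z : Ω} {ρ s ν : ℝ}

omit [Algebra k Ω] in
theorem eq_zero_of_ge {x : Ω} (h : ∀ b : ℝ, v.Ge b x) : x = 0 := by
  by_contra hx
  have := h (v x + 1) hx
  linarith

omit [Algebra k Ω] in
theorem exists_ge (v : RVal Ω) (x : Ω) : ∃ c : ℝ, v.Ge c x := ⟨v x, fun _ => le_rfl⟩

/-- The norm of the Hasse derivatives of polynomials. -/
theorem poly_norm [IsAlgClosed Ω] (hw : TL v C w ρ) {f : Polynomial Ω} (hf : f ∈ PI C) (j : ℕ)
    {b : ℝ} (hb : v.Ge b (f.eval w)) : v.Ge (b - j * ρ) ((hasseDeriv j f).eval w) := by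
  by_cases h0 : f = 0
  · rw [h0, map_zero, eval_zero]
    exact RVal.Ge.zero
  have h1 := hw.weak (PI_mono (le_algc C) hf) h0 j
  rw [taylor_coeff] at h1
  exact h1.mono (by linarith [hb (hw.eval_ne (PI_mono (le_algc C) hf) h0)])

/-- The norm is not attained. -/
theorem poly_str [IsAlgClosed Ω] (hw : TL v C w ρ) {f : Polynomial Ω} (hf : f ∈ PI C) {j : ℕ}
    (hj : j ≠ 0) {b : ℝ} (hb : v.Ge b (f.eval w)) :
    Gt v (b - j * ρ) ((hasseDeriv j f).eval w) := by
  by_cases h0 : f = 0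
  · rw [h0, map_zero, eval_zero]
    exact fun h => absurd rfl h
  have h1 := hw.strict (PI_mono (le_algc C) hf) h0 (Nat.one_le_iff_ne_zero.2 hj)
  rw [taylor_coeff] at h1
  intro h2
  have h3 := h1 h2
  have h4 := hb (hw.eval_ne (PI_mono (le_algc C) hf) h0)
  linarith

theorem hasseDeriv_mem_PI {f : Polynomial Ω} (hf : f ∈ PI C) (j : ℕ) : hasseDeriv j f ∈ PI C := by
  intro i
  rw [hasseDeriv_coeff]
  exact mul_mem (natCast_mem C _) (hf _)

theorem eval_mem_cadj {f : Polynomial Ω} (hf : f ∈ PI C) : f.eval w ∈ cadj v C w := by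
  rw [eval_eq_sum_range]
  exact sum_mem fun i _ => mul_mem (le_cadj v C w (hf i)) (pow_mem (self_mem_cadj v C w) _)

/-- The Hasse derivatives of the closure of `C(w)`. -/
theorem exists_fbr [IsAlgClosed Ω] (hΩ : CompleteV v) (hw : TL v C w ρ) :
    ∃ D : ℕ → Ω → Ω, Fbr v (cadj v C w) ρ D ∧
      (∀ j : ℕ, ∀ f ∈ PI C, D j (f.eval w) = (hasseDeriv j f).eval w) ∧
      (∀ i j : ℕ, ∀ x ∈ cadj v C w, D i (D j x) = ((i + j).choose i : Ω) * D (i + j) x) ∧
      (∀ j : ℕ, ∀ x ∈ cadj v C w, ∀ b : ℝ, ∃ f ∈ PI C, v.Ge b (x - f.eval w) ∧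
        v.Ge b (D j x - (hasseDeriv j f).eval w)) := by
  classical
  -- existence
  have h1 : ∀ (j : ℕ) (x : Ω), x ∈ cadj v C w → ∃ y : Ω, ∀ (b : ℝ), ∀ f ∈ PI C,
      v.Ge b (x - f.eval w) → v.Ge (b - j * ρ) (y - (hasseDeriv j f).eval w) := by
    intro j x hx
    choose f hf hxf using fun n : ℕ => hw.dense hx (n : ℝ)
    have hdif : ∀ (g g' : Polynomial Ω) (b : ℝ), g ∈ PI C → g' ∈ PI C → v.Ge b (x - g.eval w) →
        v.Ge b (x - g'.eval w) →
        v.Ge (b - j * ρ) ((hasseDeriv j g).eval w - (hasseDeriv j g').eval w) := by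
      intro g g' b hg hg' h2 h3
      rw [← eval_sub, ← map_sub]
      refine poly_norm hw (sub_mem hg hg') j ?_
      rw [eval_sub]
      have e : g.eval w - g'.eval w = (x - g'.eval w) - (x - g.eval w) := by ring
      rw [e]
      exact h3.sub h2
    obtain ⟨y, hy⟩ := hΩ (fun n => (hasseDeriv j (f n)).eval w) fun c => by
      obtain ⟨N, hN⟩ := exists_nat_ge (c + j * ρ)
      refine ⟨N, fun m n hm hn => ?_⟩
      refine (hdif (f m) (f n) N (hf m) (hf n) ((hxf m).mono (by exact_mod_cast hm))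
        ((hxf n).mono (by exact_mod_cast hn))).mono (by linarith)
    refine ⟨y, fun b g hg hb => ?_⟩
    obtain ⟨N, hN⟩ := hy (b - j * ρ)
    obtain ⟨N', hN'⟩ := exists_nat_ge b
    have e : y - (hasseDeriv j g).eval w = (y - (hasseDeriv j (f (max N N'))).eval w) +
        ((hasseDeriv j (f (max N N'))).eval w - (hasseDeriv j g).eval w) := by ring
    rw [e]
    refine (hN _ (le_max_left _ _)).add (hdif _ _ b (hf _) hg ((hxf _).mono (hN'.trans ?_)) hb)
    exact_mod_cast le_max_right N N'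
  choose! D hD using h1
  -- uniqueness
  have huniq : ∀ (j : ℕ) (x : Ω), x ∈ cadj v C w → ∀ y : Ω,
      (∀ b : ℝ, ∃ f ∈ PI C, v.Ge b (x - f.eval w) ∧ v.Ge b (y - (hasseDeriv j f).eval w)) →
      D j x = y := by
    intro j x hx y h
    refine sub_eq_zero.1 (eq_zero_of_ge (v := v) fun b => ?_)
    obtain ⟨f, hf, h2, h3⟩ := h (max b (b + j * ρ))
    have h4 := hD j x hx _ f hf h2
    have e : D j x - y = (D j x - (hasseDeriv j f).eval w) - (y - (hasseDeriv j f).eval w) := by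
      ring
    rw [e]
    refine (h4.mono ?_).sub (h3.mono (le_max_left _ _))
    linarith [le_max_right b (b + j * ρ)]
  have hpoly : ∀ j : ℕ, ∀ f ∈ PI C, D j (f.eval w) = (hasseDeriv j f).eval w := by
    intro j f hf
    refine huniq j _ (eval_mem_cadj hf) _ fun b => ⟨f, hf, ?_, ?_⟩
    · rw [sub_self]
      exact RVal.Ge.zero
    · rw [sub_self]
      exact RVal.Ge.zero
  -- simultaneous approximation
  have happ : ∀ j : ℕ, ∀ x ∈ cadj v C w, ∀ b : ℝ, ∃ f ∈ PI C, v.Ge b (x - f.eval w) ∧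
      v.Ge b (D j x - (hasseDeriv j f).eval w) := by
    intro j x hx b
    obtain ⟨f, hf, h2⟩ := hw.dense hx (max b (b + j * ρ))
    refine ⟨f, hf, h2.mono (le_max_left _ _), (hD j x hx _ f hf h2).mono ?_⟩
    linarith [le_max_right b (b + j * ρ)]
  have hmem : ∀ j : ℕ, ∀ x ∈ cadj v C w, D j x ∈ cadj v C w := by
    intro j x hx
    refine cld_cadj v C w fun b => ?_
    obtain ⟨f, hf, h2, h3⟩ := happ j x hx b
    exact ⟨_, eval_mem_cadj (hasseDeriv_mem_PI hf j), h3⟩
  have hadd : ∀ j : ℕ, ∀ x ∈ cadj v C w, ∀ y ∈ cadj v C w, D j (x + y) = D j x + D j y := by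
    intro j x hx y hy
    refine huniq j _ (add_mem hx hy) _ fun b => ?_
    obtain ⟨f, hf, h2, h3⟩ := happ j x hx b
    obtain ⟨g, hg, h4, h5⟩ := happ j y hy b
    refine ⟨f + g, add_mem hf hg, ?_, ?_⟩
    · rw [eval_add, add_sub_add_comm]
      exact h2.add h4
    · rw [map_add, eval_add, add_sub_add_comm]
      exact h3.add h5
  have hnorm : ∀ j : ℕ, ∀ x ∈ cadj v C w, ∀ b : ℝ, v.Ge b x → v.Ge (b - j * ρ) (D j x) := by
    intro j x hx b hb
    have h2 := hD j x hx b 0 (zero_mem _) (by rwa [eval_zero, sub_zero])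
    rwa [map_zero, eval_zero, sub_zero] at h2
  -- products
  have hmul : ∀ j : ℕ, ∀ x ∈ cadj v C w, ∀ y ∈ cadj v C w,
      D j (x * y) = ∑ i ∈ Finset.HasAntidiagonal.antidiagonal j, D i.1 x * D i.2 y := by
    intro j x hx y hy
    -- bounds
    obtain ⟨R, hR0, hR⟩ : ∃ R : ℝ, 0 ≤ R ∧ (∀ i : ℕ, i ≤ j → |i * ρ| ≤ R ∧ v.Ge (-R) (D i x) ∧
        v.Ge (-R) (D i y)) ∧ v.Ge (-R) x ∧ v.Ge (-R) y := by
      obtain ⟨c, hc⟩ := exists_ge v x
      obtain ⟨c', hc'⟩ := exists_ge v y
      refine ⟨|c| + |c'| + j * |ρ|, by positivity, fun i hi => ⟨?_, ?_, ?_⟩, hc.mono ?_,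
        hc'.mono ?_⟩
      · rw [abs_mul, Nat.abs_cast]
        have h2 : (i : ℝ) ≤ j := by exact_mod_cast hi
        have h3 : (i : ℝ) * |ρ| ≤ j * |ρ| := mul_le_mul_of_nonneg_right h2 (abs_nonneg ρ)
        linarith [abs_nonneg c, abs_nonneg c']
      · refine (hnorm i x hx c hc).mono ?_
        have h2 : (i : ℝ) ≤ j := by exact_mod_cast hi
        have h3 : (i : ℝ) * |ρ| ≤ j * |ρ| := mul_le_mul_of_nonneg_right h2 (abs_nonneg ρ)
        have h4 : (i : ℝ) * ρ ≤ i * |ρ| := mul_le_mul_of_nonneg_left (le_abs_self ρ) (by positivity)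
        linarith [neg_abs_le c, abs_nonneg c']
      · refine (hnorm i y hy c' hc').mono ?_
        have h2 : (i : ℝ) ≤ j := by exact_mod_cast hi
        have h3 : (i : ℝ) * |ρ| ≤ j * |ρ| := mul_le_mul_of_nonneg_right h2 (abs_nonneg ρ)
        have h4 : (i : ℝ) * ρ ≤ i * |ρ| := mul_le_mul_of_nonneg_left (le_abs_self ρ) (by positivity)
        linarith [neg_abs_le c', abs_nonneg c]
      · have h3 : (0 : ℝ) ≤ j * |ρ| := by positivity
        linarith [neg_abs_le c, abs_nonneg c']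
      · have h3 : (0 : ℝ) ≤ j * |ρ| := by positivity
        linarith [neg_abs_le c', abs_nonneg c]
    obtain ⟨hR1, hRx, hRy⟩ := hR
    refine huniq j _ (mul_mem hx hy) _ fun b => ?_
    set B : ℝ := |b| + 2 * R with hB
    have hB0 : 0 ≤ B := by positivity
    obtain ⟨f, hf, h2⟩ := hw.dense hx (B + R)
    obtain ⟨g, hg, h4⟩ := hw.dense hy (B + R)
    have h3 : ∀ i : ℕ, i ≤ j → v.Ge B (D i x - (hasseDeriv i f).eval w) := fun i hi =>
      (hD i x hx _ f hf h2).mono (by linarith [(le_abs_self ((i : ℝ) * ρ)).trans (hR1 i hi).1])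
    have h5 : ∀ i : ℕ, i ≤ j → v.Ge B (D i y - (hasseDeriv i g).eval w) := fun i hi =>
      (hD i y hy _ g hg h4).mono (by linarith [(le_abs_self ((i : ℝ) * ρ)).trans (hR1 i hi).1])
    have hmulb : ∀ a a' c c' : Ω, v.Ge (-R) a → v.Ge (-R) c → v.Ge B (a - a') → v.Ge B (c - c') →
        v.Ge b (a * c - a' * c') := by
      intro a a' c c' h6 h7 h8 h9
      have e : a * c - a' * c' = (a - a') * c + a * (c - c') - (a - a') * (c - c') := by ring
      rw [e]
      refine ((((h8.mul h7)).mono ?_).add ((h6.mul h9).mono ?_)).sub ((h8.mul h9).mono ?_)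
      · rw [hB]; linarith [le_abs_self b]
      · rw [hB]; linarith [le_abs_self b]
      · linarith [le_abs_self b]
    refine ⟨f * g, mul_mem hf hg, ?_, ?_⟩
    · rw [eval_mul]
      exact hmulb _ _ _ _ hRx hRy (h2.mono (by linarith)) (h4.mono (by linarith))
    · rw [hasseDeriv_mul, eval_finsetSum, ← sum_sub_distrib]
      refine RVal.Ge.sum _ _ fun i hi => ?_
      have hi' : i.1 + i.2 = j := by simpa using hi
      rw [eval_mul]
      exact hmulb _ _ _ _ (hR1 i.1 (by omega)).2.1 (hR1 i.2 (by omega)).2.2 (h3 i.1 (by omega))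
        (h5 i.2 (by omega))
  -- composition
  have hcomp : ∀ i j : ℕ, ∀ x ∈ cadj v C w,
      D i (D j x) = ((i + j).choose i : Ω) * D (i + j) x := by
    intro i j x hx
    refine huniq i _ (hmem j x hx) _ fun b => ?_
    set B : ℝ := |b| + |j * ρ| + |((i + j : ℕ) : ℝ) * ρ| with hB
    obtain ⟨f, hf, h2⟩ := hw.dense hx B
    have h3 := hD j x hx B f hf h2
    have h4 := hD (i + j) x hx B f hf h2
    refine ⟨hasseDeriv j f, hasseDeriv_mem_PI hf j, h3.mono ?_, ?_⟩
    · rw [hB]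
      linarith [le_abs_self b, le_abs_self ((j : ℝ) * ρ), abs_nonneg (((i + j : ℕ) : ℝ) * ρ)]
    · have h5 : hasseDeriv i (hasseDeriv j f) = ((i + j).choose i : ℕ) • hasseDeriv (i + j) f := by
        have := congrArg (fun L => L f) (hasseDeriv_comp (R := Ω) i j)
        simpa using this
      rw [h5, eval_smul, nsmul_eq_mul, ← mul_sub]
      have h6 : v.Ge (0 : ℝ) (((i + j).choose i : ℕ) : Ω) := by
        exact ge_natCast v _
      have h7 := h6.mul h4
      refine h7.mono ?_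
      rw [hB]
      linarith [le_abs_self b, le_abs_self (((i + j : ℕ) : ℝ) * ρ), abs_nonneg ((j : ℝ) * ρ)]
  refine ⟨D, ?_, hpoly, hcomp, happ⟩
  refine
    { mem := hmem
      c0 := ?_
      add := hadd
      mul := hmul
      con := ?_
      str := ?_
      oi := ?_
      com := ?_ }
  · intro x hx
    refine huniq 0 x hx x fun b => ?_
    obtain ⟨f, hf, h2⟩ := hw.dense hx b
    exact ⟨f, hf, h2, by rwa [hasseDeriv_zero']⟩
  · intro l hl c
    have h2 := hpoly l (Polynomial.C (algebraMap k Ω c)) (C_mem_PI (C.algebraMap_mem c))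
    rw [eval_C, hasseDeriv_C _ _ (Nat.pos_of_ne_zero hl), eval_zero] at h2
    exact h2
  · intro j hj x hx b hb
    obtain ⟨f, hf, h2⟩ := hw.dense hx (b + 1)
    have h3 := hD j x hx _ f hf h2
    have h4 : v.Ge b (f.eval w) := by
      have e : f.eval w = x - (x - f.eval w) := by ring
      rw [e]
      exact hb.sub (h2.mono (by linarith))
    have h5 := poly_str hw hf hj h4
    have e : D j x = (D j x - (hasseDeriv j f).eval w) + (hasseDeriv j f).eval w := by ring
    rw [e]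
    exact (Gt.of_ge h3 (by linarith)).add h5
  · intro x hx B
    obtain ⟨f, hf, h2⟩ := hw.dense hx B
    refine ⟨f.natDegree + 1, fun l hl => ?_⟩
    have h3 := hD l x hx _ f hf h2
    rwa [hasseDeriv_eq_zero_of_lt_natDegree f l (by omega), eval_zero, sub_zero] at h3
  · intro j x hx
    rw [hcomp 1 j x hx, hcomp j 1 x hx, add_comm j 1]
    congr 2
    exact_mod_cast Nat.choose_symm_add

end Pool.Agent.TWLM
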