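import Pool.Agent.Lib.TWM.S3a

/-!
# TANK W, case (II): systems of Hasse derivatives of a closed field

* `HSd F Φ`: the functions `Φ l` are the coefficients of a Hasse-Schmidt derivation of `F`;
* `Oi v F σ Φ`: overconvergence;
* `Arc v F σ Φ`: the norm of `Φ l` on `F` is `< l σ` for `l ≠ 0` (strict arc);
* `Fbr v F ρ D`: `D` has norm `ρ` per order, not attained, and commutes with its first derivation
  (the derivatives of a fibration `F = F₀(y)`, `ρ` the radius of `y`).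
-/

set_option autoImplicit false

namespace Pool.Agent.TWLM

open Pool.Agent.H15JM (RVal)
open Pool.Agent.TWM

universe u

variable {k Ω : Type u} [Field k] [Field Ω] [Algebra k Ω]

/-- A Hasse-Schmidt derivation of `F`. -/
structure HSd (F : IntermediateField k Ω) (Φ : ℕ → Ω → Ω) : Prop where
  mem : ∀ l, ∀ f ∈ F, Φ l f ∈ F
  c0 : ∀ f ∈ F, Φ 0 f = f
  add : ∀ l, ∀ f ∈ F, ∀ g ∈ F, Φ l (f + g) = Φ l f + Φ l g
  mul : ∀ l, ∀ f ∈ F, ∀ g ∈ F,
    Φ l (f * g) = ∑ i ∈ Finset.HasAntidiagonal.antidiagonal l, Φ i.1 f * Φ i.2 g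
  con : ∀ l, l ≠ 0 → ∀ c : k, Φ l (algebraMap k Ω c) = 0

/-- Overconvergence. -/
def Oi (v : RVal Ω) (F : IntermediateField k Ω) (σ : ℝ) (Φ : ℕ → Ω → Ω) : Prop :=
  ∀ f ∈ F, ∀ C : ℝ, ∃ L : ℕ, ∀ l : ℕ, L ≤ l → v.Ge (C - l * σ) (Φ l f)

/-- A strict arc. -/
structure Arc (v : RVal Ω) (F : IntermediateField k Ω) (σ : ℝ) (Φ : ℕ → Ω → Ω) : Prop
    extends HSd F Φ where
  str : ∀ l : ℕ, l ≠ 0 → ∃ n : ℝ, n < l * σ ∧ ∀ f ∈ F, ∀ b : ℝ, v.Ge b f → v.Ge (b - n) (Φ l f)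

/-- Hasse derivatives of norm `ρ` per order, not attained, overconvergent. -/
structure Fbr (v : RVal Ω) (F : IntermediateField k Ω) (ρ : ℝ) (D : ℕ → Ω → Ω) : Prop
    extends HSd F D where
  str : ∀ j : ℕ, j ≠ 0 → ∀ f ∈ F, ∀ b : ℝ, v.Ge b f → Gt v (b - j * ρ) (D j f)
  oi : Oi v F ρ D
  com : ∀ j : ℕ, ∀ f ∈ F, D 1 (D j f) = D j (D 1 f)

variable {v : RVal Ω} {F : IntermediateField k Ω} {σ : ℝ} {Φ : ℕ → Ω → Ω}

theorem HSd.zero (h : HSd F Φ) (l : ℕ) : Φ l 0 = 0 := by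
  have h1 := h.add l 0 F.zero_mem 0 F.zero_mem
  rw [add_zero] at h1
  exact left_eq_add.1 h1

theorem HSd.neg (h : HSd F Φ) (l : ℕ) {f : Ω} (hf : f ∈ F) : Φ l (-f) = -Φ l f := by
  have h1 := h.add l f hf (-f) (neg_mem hf)
  rw [add_neg_cancel, h.zero] at h1
  exact (neg_eq_of_add_eq_zero_right h1.symm).symm

theorem HSd.sub (h : HSd F Φ) (l : ℕ) {f g : Ω} (hf : f ∈ F) (hg : g ∈ F) :
    Φ l (f - g) = Φ l f - Φ l g := by
  rw [sub_eq_add_neg, h.add l f hf _ (neg_mem hg), h.neg l hg, ← sub_eq_add_neg]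

theorem HSd.sum (h : HSd F Φ) (l : ℕ) {ι : Type*} (S : Finset ι) (f : ι → Ω)
    (hf : ∀ i ∈ S, f i ∈ F) : Φ l (∑ i ∈ S, f i) = ∑ i ∈ S, Φ l (f i) := by
  classical
  induction S using Finset.induction_on with
  | empty => rw [Finset.sum_empty, Finset.sum_empty, h.zero]
  | insert a S ha ih =>
    rw [Finset.sum_insert ha, Finset.sum_insert ha,
      h.add l _ (hf a (Finset.mem_insert_self a S)) _
        (sum_mem fun i hi => hf i (Finset.mem_insert_of_mem hi)),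
      ih fun i hi => hf i (Finset.mem_insert_of_mem hi)]

theorem HSd.one (h : HSd F Φ) (l : ℕ) (hl : l ≠ 0) : Φ l 1 = 0 := by
  have := h.con l hl 1
  rwa [map_one] at this

/-- The power series of `f`. -/
theorem HSd.ps_pow (h : HSd F Φ) {f : Ω} (hf : f ∈ F) (n : ℕ) :
    PowerSeries.mk (fun l => Φ l (f ^ n)) = (PowerSeries.mk fun l => Φ l f) ^ n := by
  induction n with
  | zero =>
    ext l
    rw [PowerSeries.coeff_mk, pow_zero, pow_zero, PowerSeries.coeff_one]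
    split_ifs with h0
    · rw [h0, h.c0 1 F.one_mem]
    · exact h.one l h0
  | succ n ih =>
    have e : (PowerSeries.mk fun l => Φ l f) ^ (n + 1) =
        (PowerSeries.mk fun l => Φ l (f ^ n)) * (PowerSeries.mk fun l => Φ l f) := by
      rw [pow_succ, ih]
    rw [e]
    ext l
    rw [PowerSeries.coeff_mk, pow_succ, h.mul l _ (pow_mem hf n) _ hf, PowerSeries.coeff_mul]
    simp only [PowerSeries.coeff_mk]

variable (p : ℕ) [hp : Fact p.Prime] [CharP Ω p]

omit [Algebra k Ω] in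
/-- The coefficients of a `p`-th power of a power series. -/
theorem coeff_ps_pow (f : PowerSeries Ω) (n : ℕ) :
    PowerSeries.coeff n (f ^ p) = if p ∣ n then (PowerSeries.coeff (n / p) f) ^ p else 0 := by
  have h1 : PowerSeries.coeff n (f ^ p) = (PowerSeries.trunc (n + 1) (f ^ p)).coeff n := by
    rw [PowerSeries.coeff_trunc, if_pos (Nat.lt_succ_self n)]
  have h2 : ∀ g : Polynomial Ω,
      (g ^ p).coeff n = if p ∣ n then (g.coeff (n / p)) ^ p else 0 := by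
    intro g
    rw [← Polynomial.map_frobenius_expand, Polynomial.coeff_map,
      Polynomial.coeff_expand hp.out.pos]
    split_ifs
    · rfl
    · rw [map_zero]
  rw [h1, ← PowerSeries.trunc_trunc_pow, PowerSeries.coeff_trunc, if_pos (Nat.lt_succ_self n),
    ← Polynomial.coe_pow, Polynomial.coeff_coe, h2, PowerSeries.coeff_trunc,
    if_pos (Nat.lt_succ_of_le (Nat.div_le_self n p))]

omit [Algebra k Ω] in
/-- The coefficients of a `p ^ m`-th power of a power series. -/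
theorem coeff_ps_pow_pow (f : PowerSeries Ω) (m j : ℕ) :
    PowerSeries.coeff (p ^ m * j) (f ^ p ^ m) = (PowerSeries.coeff j f) ^ p ^ m := by
  induction m with
  | zero => simp
  | succ m ih =>
    rw [_root_.pow_succ p m, _root_.pow_mul, coeff_ps_pow, if_pos, _root_.pow_mul]
    · have e : p ^ m * p * j / p = p ^ m * j := by
        rw [mul_comm (p ^ m) p, mul_assoc, Nat.mul_div_cancel_left _ hp.out.pos]
      rw [e, ih]
    · exact ⟨p ^ m * j, by ring⟩

omit [Algebra k Ω] in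
theorem coeff_ps_pow_zero (f : PowerSeries Ω) (m j : ℕ) (hj : ¬ p ^ m ∣ j) :
    PowerSeries.coeff j (f ^ p ^ m) = 0 := by
  induction m generalizing j with
  | zero => exact absurd (by rw [_root_.pow_zero]; exact one_dvd j) hj
  | succ m ih =>
    rw [_root_.pow_succ p m, _root_.pow_mul, coeff_ps_pow]
    split_ifs with h1
    · obtain ⟨c, rfl⟩ := h1
      rw [Nat.mul_div_cancel_left _ hp.out.pos, ih c, zero_pow hp.out.ne_zero]
      intro h2
      apply hj
      rw [pow_succ']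
      exact Nat.mul_dvd_mul_left p h2
    · rfl

/-- The coefficients of a `p ^ i`-th power. -/
theorem HSd.pow_mul (h : HSd F Φ) {f : Ω} (hf : f ∈ F) (i j : ℕ) :
    Φ (p ^ i * j) (f ^ p ^ i) = (Φ j f) ^ p ^ i := by
  have h1 := congrArg (PowerSeries.coeff (p ^ i * j)) (h.ps_pow hf (p ^ i))
  rw [PowerSeries.coeff_mk, coeff_ps_pow_pow, PowerSeries.coeff_mk] at h1
  exact h1

theorem HSd.pow_zero (h : HSd F Φ) {f : Ω} (hf : f ∈ F) (i j : ℕ) (hj : ¬ p ^ i ∣ j) :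
    Φ j (f ^ p ^ i) = 0 := by
  have h1 := congrArg (PowerSeries.coeff j) (h.ps_pow hf (p ^ i))
  rw [PowerSeries.coeff_mk, coeff_ps_pow_zero p _ _ _ hj] at h1
  exact h1

omit hp [CharP Ω p] in
theorem exists_ge_of_gt {r : ℝ} {x : Ω} (h : Gt v r x) : ∃ η : ℝ, 0 < η ∧ v.Ge (r + η) x := by
  by_cases hx : x = 0
  · exact ⟨1, one_pos, fun h0 => absurd hx h0⟩
  · exact ⟨v x - r, by linarith [h hx], fun _ => by linarith⟩

omit hp [CharP Ω p] in
/-- The norm. -/
theorem Fbr.norm {ρ : ℝ} {D : ℕ → Ω → Ω} (h : Fbr v F ρ D) (j : ℕ) {f : Ω} (hf : f ∈ F) {b : ℝ}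
    (hb : v.Ge b f) : v.Ge (b - j * ρ) (D j f) := by
  by_cases hj : j = 0
  · subst hj
    rw [h.c0 f hf]
    exact hb.mono (by simp)
  · exact (h.str j hj f hf b hb).ge

omit hp [CharP Ω p] in
/-- A uniform margin. -/
theorem Fbr.margin {ρ : ℝ} {D : ℕ → Ω → Ω} (h : Fbr v F ρ D) {f : Ω} (hf : f ∈ F) {b : ℝ}
    (hb : v.Ge b f) : ∃ η : ℝ, 0 < η ∧ ∀ j : ℕ, j ≠ 0 → v.Ge (b - j * ρ + η) (D j f) := by
  have key : ∀ L : ℕ, ∃ η : ℝ, 0 < η ∧ ∀ j : ℕ, j ≠ 0 → j < L → v.Ge (b - j * ρ + η) (D j f) := by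
    intro L
    induction L with
    | zero => exact ⟨1, one_pos, fun j _ h1 => absurd h1 (Nat.not_lt_zero j)⟩
    | succ L ih =>
      obtain ⟨η, hη, h1⟩ := ih
      by_cases hL : L = 0
      · refine ⟨1, one_pos, fun j hj h2 => absurd h2 (by omega)⟩
      obtain ⟨η', hη', h2⟩ := exists_ge_of_gt (h.str L hL f hf b hb)
      refine ⟨min η η', lt_min hη hη', fun j hj h3 => ?_⟩
      rcases Nat.lt_succ_iff_lt_or_eq.1 h3 with h4 | rfl
      · exact (h1 j hj h4).mono (by linarith [min_le_left η η'])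
      · exact h2.mono (by linarith [min_le_right η η'])
  obtain ⟨L, hL⟩ := h.oi f hf (b + 1)
  obtain ⟨η, hη, h1⟩ := key L
  refine ⟨min η 1, lt_min hη one_pos, fun j hj => ?_⟩
  by_cases h2 : j < L
  · exact (h1 j hj h2).mono (by linarith [min_le_left η 1])
  · exact (hL j (not_lt.1 h2)).mono (by linarith [min_le_right η 1])

omit hp [CharP Ω p] in
/-- Leibniz: only the term without a derivative of `x` matters. -/
theorem HSd.mul_err {ρ : ℝ} {D : ℕ → Ω → Ω} (h : HSd F D) {x y : Ω} (hx : x ∈ F) (hy : y ∈ F)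
    {bx c η : ℝ} (hbx : ∀ a : ℕ, a ≠ 0 → v.Ge (bx - a * ρ + η) (D a x))
    (hby : ∀ a : ℕ, v.Ge (c - a * ρ) (D a y)) (j : ℕ) :
    v.Ge (bx + c - j * ρ + η) (D j (x * y) - x * D j y) := by
  classical
  have e1 : D j (x * y) - x * D j y =
      ∑ i ∈ (Finset.HasAntidiagonal.antidiagonal j).erase (0, j), D i.1 x * D i.2 y := by
    rw [Finset.sum_erase_eq_sub (by simp), h.mul j x hx y hy, h.c0 x hx]
  rw [e1]
  refine RVal.Ge.sum _ _ fun i hi => ?_
  obtain ⟨h1, h2⟩ := Finset.mem_erase.1 hi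
  have h3 : i.1 + i.2 = j := by simpa using h2
  have h4 : i.1 ≠ 0 := by
    intro h5
    apply h1
    ext
    · exact h5
    · simp only
      omega
  refine ((hbx i.1 h4).mul (hby i.2)).mono (le_of_eq ?_)
  have h6 : (j : ℝ) = i.1 + i.2 := by exact_mod_cast h3.symm
  rw [h6]
  ring

end Pool.Agent.TWLM
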