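import Pool.Agent.Lib.TWLM.Arc

/-!
# TANK W, Lemma M (note 3152): no hit is movable in the base

`F` is closed, `D` the Hasse derivatives of a fibration of `F` of radius `ρ`, `z` is of
transcendental type over `F` with radius `s`.  If
`a(θ) = e θ + ∑ A_i θ ^ (p ^ i) + a₀` is in `F ^ p + O(≥ ν - ε)` for `θ` in `F` near `z`, then
`v (D A_i) > ν - p ^ i s - ρ` for all `i ≥ 1`.
-/

set_option autoImplicit false

open Polynomial Finset

namespace Pool.Agent.TWLM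

open Pool.Agent.H15JM (RVal)
open Pool.Agent.TWM

universe u

variable {k Ω : Type u} [Field k] [Field Ω] [Algebra k Ω] {v : RVal Ω}
  {F : IntermediateField k Ω} {ρ s ν e₀ η : ℝ} {D : ℕ → Ω → Ω} (p : ℕ) [hp : Fact p.Prime]
  [CharP Ω p]

/-- The derivative of order `p ^ m` of `w ^ (p ^ i)`. -/
noncomputable def vm (D : ℕ → Ω → Ω) (w : Ω) (m i : ℕ) : Ω :=
  if i ≤ m then (D (p ^ (m - i)) w) ^ p ^ i else 0

theorem HSd.vm_eq (h : HSd F D) {w : Ω} (hw : w ∈ F) (m i : ℕ) :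
    D (p ^ m) (w ^ p ^ i) = vm p D w m i := by
  unfold vm
  split_ifs with hi
  · have h1 := h.pow_mul p hw i (p ^ (m - i))
    rwa [← pow_add, Nat.add_sub_cancel' hi] at h1
  · refine h.pow_zero p hw i _ fun h1 => hi ?_
    exact (Nat.pow_dvd_pow_iff_le_right hp.out.one_lt).1 h1

omit hp [CharP Ω p] in
/-- Division in a bound. -/
theorem ge_div {B w : Ω} {q : ℕ} (hq : 0 < q) (hB : B ≠ 0) {b c d : ℝ} (hb : v B = b)
    (h : v.Ge c (B * w ^ q)) (hd : b + q * d ≤ c) : v.Ge d w := by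
  intro hw
  have h1 := h (mul_ne_zero hB (pow_ne_zero q hw))
  rw [v.map_mul hB (pow_ne_zero q hw), v.map_pow hw, hb] at h1
  have h2 : (0 : ℝ) < q := by exact_mod_cast hq
  have h3 : (q : ℝ) * d ≤ q * v w := by linarith
  exact le_of_mul_le_mul_left h3 h2

/-- The data of Lemma M at one point `θ₀`. -/
structure Dat (v : RVal Ω) (F : IntermediateField k Ω) (ρ s ν : ℝ) (D : ℕ → Ω → Ω) (e : Ω)
    (n : ℕ) (B : ℕ → Ω) (e₀ η : ℝ) : Prop where
  fb : Fbr v F ρ D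
  e_mem : e ∈ F
  e_ge : v.Ge (ν - s) e
  e_mar : ∀ a : ℕ, a ≠ 0 → v.Ge (ν - s - a * ρ + η) (D a e)
  B_mem : ∀ i ∈ Icc 1 n, B i ∈ F
  B_ge : ∀ i ∈ Icc 1 n, v.Ge (ν - p ^ i * s - ρ) (B i)
  B_mar : ∀ i ∈ Icc 1 n, ∀ a : ℕ, a ≠ 0 → v.Ge (ν - p ^ i * s - ρ - a * ρ + η) (D a (B i))
  n_pos : 1 ≤ n
  B_ne : B n ≠ 0
  B_val : v (B n) = ν - p ^ n * s - ρ
  e₀_nn : 0 ≤ e₀
  mar : p ^ n * e₀ ≤ η

/-- The main relation, differentiated `p ^ m` times. -/
theorem Dat.rel {e : Ω} {n : ℕ} {B : ℕ → Ω} (h : Dat p v F ρ s ν D e n B e₀ η) {w κ : Ω}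
    (hw : w ∈ F) (hwv : v.Ge (s - e₀) w) (hκ : κ ∈ F) {ε : ℝ} (hε : 0 ≤ ε)
    (hR : v.Ge (ν - ρ - ε) (e * D 1 w + ∑ i ∈ Icc 1 n, B i * w ^ p ^ i + κ)) (m : ℕ) :
    v.Ge (ν - ρ - p ^ m * ρ - ε) (e * D 1 (D (p ^ m) w) + ∑ i ∈ Icc 1 n, B i * vm p D w m i +
      D (p ^ m) κ) := by
  have hF := h.fb
  have hD1 : D 1 w ∈ F := hF.mem 1 w hw
  have hBs : ∀ i ∈ Icc 1 n, B i * w ^ p ^ i ∈ F := fun i hi => mul_mem (h.B_mem i hi) (pow_mem hw _)
  have hp1 : (1 : ℝ) ≤ p := by exact_mod_cast hp.out.one_lt.le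
  have hRm : e * D 1 w + ∑ i ∈ Icc 1 n, B i * w ^ p ^ i + κ ∈ F :=
    add_mem (add_mem (mul_mem h.e_mem hD1) (sum_mem hBs)) hκ
  have h1 := hF.norm (p ^ m) hRm hR
  rw [hF.add _ _ (add_mem (mul_mem h.e_mem hD1) (sum_mem hBs)) _ hκ,
    hF.add _ _ (mul_mem h.e_mem hD1) _ (sum_mem hBs), hF.toHSd.sum _ _ _ hBs] at h1
  -- the error of the first term
  have e1 : v.Ge (ν - ρ - p ^ m * ρ - ε)
      (D (p ^ m) (e * D 1 w) - e * D (p ^ m) (D 1 w)) := by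
    have h2 := hF.toHSd.mul_err (ρ := ρ) h.e_mem hD1 (bx := ν - s) (c := s - e₀ - ρ) (η := η)
      h.e_mar (fun a => by
        have h3 := hF.norm 1 hw hwv
        have h4 := hF.norm a hD1 h3
        exact h4.mono (by push_cast; linarith)) (p ^ m)
    refine h2.mono ?_
    have h5 : e₀ ≤ η := by
      have h6 : (1 : ℝ) ≤ p ^ n := one_le_pow₀ hp1
      have h7 := h.mar
      have h8 := h.e₀_nn
      nlinarith
    push_cast
    linarith
  have e2 : ∀ i ∈ Icc 1 n, v.Ge (ν - ρ - p ^ m * ρ - ε)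
      (D (p ^ m) (B i * w ^ p ^ i) - B i * vm p D w m i) := by
    intro i hi
    rw [← hF.toHSd.vm_eq p hw m i]
    have h2 := hF.toHSd.mul_err (ρ := ρ) (h.B_mem i hi) (pow_mem hw (p ^ i))
      (bx := ν - p ^ i * s - ρ) (c := p ^ i * (s - e₀)) (η := η)
      (h.B_mar i hi) (fun a => by
        have h3 := ge_pow hwv (p ^ i)
        have h4 := hF.norm a (pow_mem hw (p ^ i)) h3
        exact h4.mono (by push_cast; linarith)) (p ^ m)
    refine h2.mono ?_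
    have h5 : (p : ℝ) ^ i * e₀ ≤ η := by
      have h6 : (p : ℝ) ^ i ≤ p ^ n := pow_le_pow_right₀ hp1 (mem_Icc.1 hi).2
      have h7 := h.mar
      have h8 := h.e₀_nn
      nlinarith
    push_cast
    nlinarith
  have e3 : e * D 1 (D (p ^ m) w) + ∑ i ∈ Icc 1 n, B i * vm p D w m i + D (p ^ m) κ =
      (D (p ^ m) (e * D 1 w) + ∑ i ∈ Icc 1 n, D (p ^ m) (B i * w ^ p ^ i) + D (p ^ m) κ) -
        (D (p ^ m) (e * D 1 w) - e * D (p ^ m) (D 1 w)) -
        ∑ i ∈ Icc 1 n, (D (p ^ m) (B i * w ^ p ^ i) - B i * vm p D w m i) := by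
    rw [hF.com _ w hw, sum_sub_distrib]
    ring
  rw [e3]
  refine ((h1.mono ?_).sub e1).sub (RVal.Ge.sum _ _ e2)
  push_cast
  linarith

omit [CharP Ω p] in
/-- One step: a bound `t` for the derivatives of order `p ^ (m - i)`, `i < n`, improves. -/
theorem Dat.step {e : Ω} {n : ℕ} {B : ℕ → Ω} (h : Dat p v F ρ s ν D e n B e₀ η) {w κ : Ω}
    (hw : w ∈ F) {ε t : ℝ} (hεt : ε ≤ t) {m : ℕ} (hm : n ≤ m)
    (hrel : v.Ge (ν - ρ - p ^ m * ρ - ε) (e * D 1 (D (p ^ m) w) +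
      ∑ i ∈ Icc 1 n, B i * vm p D w m i + D (p ^ m) κ))
    (hκ : v.Ge (ν - ρ - p ^ m * ρ) (D (p ^ m) κ)) (hε : 0 ≤ ε)
    (hW : ∀ i : ℕ, i < n → v.Ge (s - p ^ (m - i) * ρ - t / p ^ i) (D (p ^ (m - i)) w)) :
    v.Ge (s - p ^ (m - n) * ρ - t / p ^ n) (D (p ^ (m - n)) w) := by
  have hF := h.fb
  have hp0 : (0 : ℝ) < p := by exact_mod_cast hp.out.pos
  have ht : 0 ≤ t := hε.trans hεt
  obtain ⟨n', rfl⟩ : ∃ n', n = n' + 1 := ⟨n - 1, by have := h.n_pos; omega⟩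
  rw [sum_Icc_succ_top (by omega)] at hrel
  -- the terms except the last one
  have h1 : v.Ge (ν - ρ - p ^ m * ρ - t) (e * D 1 (D (p ^ m) w)) := by
    have h2 := hW 0 (by omega)
    rw [Nat.sub_zero, pow_zero, div_one] at h2
    have h3 := hF.norm 1 (hF.mem _ w hw) h2
    refine (h.e_ge.mul h3).mono ?_
    push_cast
    linarith
  have h2 : ∀ i ∈ Icc 1 n', v.Ge (ν - ρ - p ^ m * ρ - t) (B i * vm p D w m i) := by
    intro i hi
    obtain ⟨hi1, hi2⟩ := mem_Icc.1 hi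
    unfold vm
    rw [if_pos (by omega)]
    have h3 := ge_pow (hW i (by omega)) (p ^ i)
    refine ((h.B_ge i (mem_Icc.2 ⟨hi1, by omega⟩)).mul h3).mono ?_
    have h4 : (p : ℝ) ^ m = p ^ i * p ^ (m - i) := by
      rw [← pow_add]
      congr 1
      omega
    have h5 : (p : ℝ) ^ i * (t / p ^ i) = t := by field_simp
    push_cast
    rw [h4]
    have h6 : (p : ℝ) ^ i * (s - p ^ (m - i) * ρ - t / p ^ i) =
        p ^ i * s - p ^ i * p ^ (m - i) * ρ - t := by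
      rw [mul_sub, h5]
      ring
    rw [h6]
    linarith
  have h3 : v.Ge (ν - ρ - p ^ m * ρ - t) (B (n' + 1) * (D (p ^ (m - (n' + 1))) w) ^ p ^ (n' + 1)) := by
    have e1 : B (n' + 1) * (D (p ^ (m - (n' + 1))) w) ^ p ^ (n' + 1) =
        (e * D 1 (D (p ^ m) w) + (∑ i ∈ Icc 1 n', B i * vm p D w m i +
          B (n' + 1) * vm p D w m (n' + 1)) + D (p ^ m) κ) - e * D 1 (D (p ^ m) w) -
          ∑ i ∈ Icc 1 n', B i * vm p D w m i - D (p ^ m) κ := by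
      have e2 : vm p D w m (n' + 1) = (D (p ^ (m - (n' + 1))) w) ^ p ^ (n' + 1) := by
        unfold vm
        rw [if_pos hm]
      rw [e2]
      ring
    rw [e1]
    exact (((hrel.mono (by linarith)).sub h1).sub (RVal.Ge.sum _ _ h2)).sub (hκ.mono (by linarith))
  refine ge_div (q := p ^ (n' + 1)) (pow_pos hp.out.pos _) h.B_ne h.B_val h3 ?_
  have h4 : (p : ℝ) ^ m = p ^ (n' + 1) * p ^ (m - (n' + 1)) := by
    rw [← pow_add]
    congr 1
    omega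
  have h5 : (p : ℝ) ^ (n' + 1) * (t / p ^ (n' + 1)) = t := by field_simp
  have h6 : (p : ℝ) ^ (n' + 1) * (s - p ^ (m - (n' + 1)) * ρ - t / p ^ (n' + 1)) =
      p ^ (n' + 1) * s - p ^ (n' + 1) * p ^ (m - (n' + 1)) * ρ - t := by
    rw [mul_sub, h5]
    ring
  push_cast
  rw [h6, h4]
  linarith

/-- The derivatives of large order are small. -/
theorem Dat.large {e : Ω} {n : ℕ} {B : ℕ → Ω} (h : Dat p v F ρ s ν D e n B e₀ η) {w κ : Ω}
    (hw : w ∈ F) (hwv : v.Ge (s - e₀) w) (hκF : κ ∈ F) {ε : ℝ} (hε : 0 < ε)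
    (hR : v.Ge (ν - ρ - ε) (e * D 1 w + ∑ i ∈ Icc 1 n, B i * w ^ p ^ i + κ)) {m₀ : ℕ}
    (hm₀ : n ≤ m₀) (hκ : ∀ m : ℕ, m₀ ≤ m → v.Ge (ν - ρ - p ^ m * ρ) (D (p ^ m) κ)) (m : ℕ)
    (hm : m₀ ≤ m) : v.Ge (s - p ^ m * ρ - ε) (D (p ^ m) w) := by
  have hF := h.fb
  have hp0 : (0 : ℝ) < p := by exact_mod_cast hp.out.pos
  have hp1 : (1 : ℝ) < p := by exact_mod_cast hp.out.one_lt
  have hn := h.n_pos
  -- the bounds
  have key : ∀ N m : ℕ, m₀ ≤ m → ∀ i : ℕ, i < n →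
      v.Ge (s - p ^ (m - i) * ρ - (max (p ^ n * e₀ / p ^ N) ε) / p ^ i) (D (p ^ (m - i)) w) := by
    intro N
    induction N with
    | zero =>
      intro m hm i hi
      have h1 := hF.norm (p ^ (m - i)) hw hwv
      refine h1.mono ?_
      rw [pow_zero, div_one]
      have h2 : e₀ ≤ (max (p ^ n * e₀) ε) / p ^ i := by
        rw [le_div_iff₀ (by positivity)]
        refine le_trans ?_ (le_max_left _ _)
        rw [mul_comm]
        exact mul_le_mul_of_nonneg_right (pow_le_pow_right₀ hp1.le hi.le) h.e₀_nn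
      push_cast
      linarith
    | succ N ih =>
      intro m hm i hi
      set t := max (p ^ n * e₀ / p ^ N) ε with ht
      have hW := ih (m + 1) (by omega)
      have h3 : t / p / p ^ i ≤ (max (p ^ n * e₀ / p ^ (N + 1)) ε) / p ^ i := by
        refine div_le_div_of_nonneg_right ?_ (by positivity)
        rw [div_le_iff₀ hp0, ht]
        refine max_le ?_ ?_
        · have h4 : p ^ n * e₀ / p ^ N = p ^ n * e₀ / p ^ (N + 1) * (p : ℝ) := by
            rw [pow_succ]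
            field_simp
          rw [h4]
          exact mul_le_mul_of_nonneg_right (le_max_left _ _) hp0.le
        · have h4 : ε ≤ ε * p := le_mul_of_one_le_right hε.le hp1.le
          exact h4.trans (mul_le_mul_of_nonneg_right (le_max_right _ _) hp0.le)
      by_cases hi2 : i + 1 < n
      · have h5 := hW (i + 1) hi2
        have h6 : m + 1 - (i + 1) = m - i := by omega
        rw [h6] at h5
        refine h5.mono ?_
        have h7 : t / p ^ (i + 1) = t / p / p ^ i := by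
          rw [pow_succ]
          field_simp
        rw [h7]
        linarith
      · have hi3 : i + 1 = n := by omega
        have h5 := h.step p hw (le_max_right _ _ : ε ≤ t) (m := m + 1) (by omega)
          (h.rel p hw hwv hκF hε.le hR (m + 1)) (hκ (m + 1) (by omega)) hε.le hW
        have h6 : m + 1 - n = m - i := by omega
        rw [h6] at h5
        refine h5.mono ?_
        have h7 : t / p ^ n = t / p / p ^ i := by
          rw [← hi3, pow_succ]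
          field_simp
        rw [h7]
        linarith
  obtain ⟨N, hN⟩ : ∃ N : ℕ, p ^ n * e₀ / (p : ℝ) ^ N ≤ ε := by
    obtain ⟨N, hN⟩ := pow_unbounded_of_one_lt (p ^ n * e₀ / ε) hp1
    refine ⟨N, ?_⟩
    rw [div_lt_iff₀ hε] at hN
    rw [div_le_iff₀ (by positivity)]
    linarith
  have h1 := key N m hm 0 (by omega)
  rw [Nat.sub_zero, pow_zero, div_one, max_eq_right hN] at h1
  exact h1

section Main

variable [IsAlgClosed Ω] {z θ₀ : Ω}

/-- `v (D (p ^ m) (θ - θ₀))` is attained at the level `s - p ^ m ρ`. -/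
def Att (v : RVal Ω) (F : IntermediateField k Ω) (ρ s : ℝ) (D : ℕ → Ω → Ω) (z θ₀ : Ω) (m N : ℕ)
    (f : Ω) : Prop :=
  ∀ ε : ℝ, 0 < ε → ∃ δ : ℝ, 0 < δ ∧ ∀ θ ∈ F, v.Ge (s - δ) (z - θ) →
    v.Ge (p ^ N * (s - p ^ m * ρ) - ε) ((D (p ^ m) (θ - θ₀)) ^ p ^ N - f)

omit [IsAlgClosed Ω] in
theorem Att.up {m N : ℕ} {f : Ω} (h : Att p v F ρ s D z θ₀ m N f) :
    Att p v F ρ s D z θ₀ m (N + 1) (f ^ p) := by
  intro ε hε
  have hp0 : (0 : ℝ) < p := by exact_mod_cast hp.out.pos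
  obtain ⟨δ, hδ, h1⟩ := h (ε / p) (by positivity)
  refine ⟨δ, hδ, fun θ hθ hz => ?_⟩
  have h2 := ge_pow (h1 θ hθ hz) p
  rw [sub_pow_char, ← pow_mul, ← pow_succ] at h2
  refine h2.mono (le_of_eq ?_)
  rw [pow_succ, mul_sub (p : ℝ)]
  have h3 : (p : ℝ) * (ε / p) = ε := by field_simp
  rw [h3]
  ring

omit [IsAlgClosed Ω] in
theorem Att.ups {m N : ℕ} {f : Ω} (h : Att p v F ρ s D z θ₀ m N f) (M : ℕ) :
    Att p v F ρ s D z θ₀ m (N + M) (f ^ p ^ M) := by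
  induction M with
  | zero => simpa using h
  | succ M ih =>
    have h1 := ih.up
    rwa [← pow_mul, ← pow_succ] at h1

omit [IsAlgClosed Ω] in
/-- A common exponent. -/
theorem Att.common (S : Finset ℕ) (h : ∀ m ∈ S, ∃ N : ℕ, ∃ f ∈ F, Att p v F ρ s D z θ₀ m N f) :
    ∃ N : ℕ, ∀ m ∈ S, ∃ f ∈ F, Att p v F ρ s D z θ₀ m N f := by
  classical
  induction S using Finset.induction_on with
  | empty => exact ⟨0, by simp⟩
  | insert a S ha ih =>
    obtain ⟨N, hN⟩ := ih fun m hm => h m (mem_insert_of_mem hm)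
    obtain ⟨M, f, hf, hM⟩ := h a (mem_insert_self a S)
    refine ⟨N + M, fun m hm => ?_⟩
    rcases mem_insert.1 hm with rfl | hm
    · refine ⟨f ^ p ^ N, pow_mem hf _, ?_⟩
      have := hM.ups p N
      rwa [add_comm M N] at this
    · obtain ⟨g, hg, h1⟩ := hN m hm
      exact ⟨g ^ p ^ M, pow_mem hg _, h1.ups p M⟩

omit [IsAlgClosed Ω] in
/-- The descent. -/
theorem Dat.descent {e : Ω} {n : ℕ} {B : ℕ → Ω} (h : Dat p v F ρ s ν D e n B e₀ η) {κ : Ω}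
    (hκF : κ ∈ F) (hθ₀ : θ₀ ∈ F)
    (hR : ∀ ε : ℝ, 0 < ε → ∃ δ : ℝ, 0 < δ ∧ ∀ θ ∈ F, v.Ge (s - δ) (z - θ) →
      v.Ge (s - e₀) (θ - θ₀) ∧
      v.Ge (ν - ρ - ε) (e * D 1 (θ - θ₀) + ∑ i ∈ Icc 1 n, B i * (θ - θ₀) ^ p ^ i + κ)) (j : ℕ)
    (hatt : ∀ m : ℕ, j < m → ∃ N : ℕ, ∃ f ∈ F, Att p v F ρ s D z θ₀ m N f) :
    ∃ N : ℕ, ∃ f ∈ F, Att p v F ρ s D z θ₀ j N f := by
  have hF := h.fb
  have hp0 : (0 : ℝ) < p := by exact_mod_cast hp.out.pos
  have hp1 : (1 : ℝ) < p := by exact_mod_cast hp.out.one_lt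
  obtain ⟨n', rfl⟩ : ∃ n', n = n' + 1 := ⟨n - 1, by have := h.n_pos; omega⟩
  set m := j + (n' + 1) with hm
  obtain ⟨N, hN⟩ := Att.common p (F := F) (ρ := ρ) (s := s) (D := D) (z := z) (θ₀ := θ₀) (v := v)
    (Icc (j + 1) m) fun m' hm' => hatt m' (by have := (mem_Icc.1 hm').1; omega)
  choose! f hfF hf using hN
  -- the element
  set q := p ^ N with hq
  set Bn := B (n' + 1) with hBn
  set F₁ := e ^ q * D q (f m) + ∑ i ∈ Icc 1 n', B i ^ q * f (m - i) ^ p ^ i +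
    (D (p ^ m) κ) ^ q with hF₁
  have hF₁m : F₁ ∈ F := by
    refine add_mem (add_mem (mul_mem (pow_mem h.e_mem _) (hF.mem _ _ (hfF m ?_)))
      (sum_mem fun i hi => mul_mem (pow_mem (h.B_mem i ?_) _) (pow_mem (hfF _ ?_) _)))
      (pow_mem (hF.mem _ _ hκF) _)
    · exact mem_Icc.2 ⟨by omega, le_rfl⟩
    · exact mem_Icc.2 ⟨(mem_Icc.1 hi).1, (mem_Icc.1 hi).2.trans (Nat.le_succ _)⟩
    · have := mem_Icc.1 hi
      exact mem_Icc.2 ⟨by omega, by omega⟩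
  refine ⟨N + (n' + 1), -F₁ / Bn ^ q, div_mem (neg_mem hF₁m)
    (pow_mem (h.B_mem _ (mem_Icc.2 ⟨by omega, le_rfl⟩)) _), fun ε hε => ?_⟩
  -- a small number
  set C : ℝ := p ^ (n' + 1) + p ^ N + 1 with hC
  have hCpos : 0 < C := by positivity
  set ε' := ε / C with hε'
  have hε'0 : 0 < ε' := by positivity
  have hCε : C * ε' = ε := by
    rw [hε']
    field_simp
  obtain ⟨δ₁, hδ₁, h1⟩ := hR ε' hε'0
  have h2 : ∃ δ : ℝ, 0 < δ ∧ ∀ m' ∈ Icc (j + 1) m, ∀ θ ∈ F, v.Ge (s - δ) (z - θ) →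
      v.Ge (p ^ N * (s - p ^ m' * ρ) - ε') ((D (p ^ m') (θ - θ₀)) ^ p ^ N - f m') := by
    choose! δ hδ hδ' using fun m' hm' => hf m' hm' ε' hε'0
    have : ∀ S : Finset ℕ, (∀ m' ∈ S, 0 < δ m') → ∃ d : ℝ, 0 < d ∧ ∀ m' ∈ S, d ≤ δ m' := by
      intro S hS
      classical
      induction S using Finset.induction_on with
      | empty => exact ⟨1, one_pos, by simp⟩
      | insert a S ha ih =>
        obtain ⟨d, hd, h3⟩ := ih fun m' hm' => hS m' (mem_insert_of_mem hm')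
        refine ⟨min d (δ a), lt_min hd (hS a (mem_insert_self a S)), fun m' hm' => ?_⟩
        rcases mem_insert.1 hm' with rfl | hm'
        · exact min_le_right _ _
        · exact (min_le_left _ _).trans (h3 m' hm')
    obtain ⟨d, hd, h3⟩ := this _ hδ
    exact ⟨d, hd, fun m' hm' θ hθ hz => hδ' m' hm' θ hθ (hz.mono (by linarith [h3 m' hm']))⟩
  obtain ⟨δ₂, hδ₂, h3⟩ := h2
  refine ⟨min δ₁ δ₂, lt_min hδ₁ hδ₂, fun θ hθ hz => ?_⟩
  set w := θ - θ₀ with hw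
  have hwF : w ∈ F := sub_mem hθ hθ₀
  obtain ⟨hwv, hRw⟩ := h1 θ hθ (hz.mono (by linarith [min_le_left δ₁ δ₂]))
  have h3' : ∀ m' ∈ Icc (j + 1) m,
      v.Ge (p ^ N * (s - p ^ m' * ρ) - ε') ((D (p ^ m') w) ^ p ^ N - f m') := fun m' hm' =>
    h3 m' hm' θ hθ (hz.mono (by linarith [min_le_right δ₁ δ₂]))
  have hrel := h.rel p hwF hwv hκF hε'0.le hRw m
  -- the level
  set T : ℝ := p ^ N * (ν - ρ - p ^ m * ρ) with hT
  have hC1 : (1 : ℝ) ≤ C := by
    have : (0 : ℝ) < (p : ℝ) ^ (n' + 1) + p ^ N := by positivity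
    linarith
  have hε1 : ε' ≤ ε := by
    rw [← hCε]
    nlinarith
  -- the first term
  have t1 : v.Ge (T - ε) (e ^ q * (D 1 (D (p ^ m) w)) ^ q - e ^ q * D q (f m)) := by
    have hm' : m ∈ Icc (j + 1) m := mem_Icc.2 ⟨by omega, le_rfl⟩
    have hDm : D (p ^ m) w ∈ F := hF.mem _ _ hwF
    have h4 := hF.norm q (sub_mem (pow_mem hDm _) (hfF m hm')) (h3' m hm')
    rw [hF.toHSd.sub _ (pow_mem hDm _) (hfF m hm')] at h4
    have h5 : D q ((D (p ^ m) w) ^ p ^ N) = (D 1 (D (p ^ m) w)) ^ q := by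
      have := hF.toHSd.pow_mul p hDm N 1
      rwa [mul_one] at this
    rw [h5] at h4
    rw [← mul_sub]
    have h6 := ge_pow h.e_ge q
    refine (h6.mul h4).mono ?_
    rw [hT, hq]
    push_cast
    linarith
  have t2 : ∀ i ∈ Icc 1 n', v.Ge (T - ε) (B i ^ q * vm p D w m i ^ q -
      B i ^ q * f (m - i) ^ p ^ i) := by
    intro i hi
    obtain ⟨hi1, hi2⟩ := mem_Icc.1 hi
    have hm' : m - i ∈ Icc (j + 1) m := mem_Icc.2 ⟨by omega, by omega⟩
    have h4 := ge_pow (h3' _ hm') (p ^ i)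
    have h5 : ((D (p ^ (m - i)) w) ^ p ^ N - f (m - i)) ^ p ^ i =
        vm p D w m i ^ q - f (m - i) ^ p ^ i := by
      unfold vm
      rw [if_pos (by omega), sub_pow_char_pow, ← pow_mul, ← pow_mul, mul_comm (p ^ N)]
    rw [h5] at h4
    rw [← mul_sub]
    have h6 := ge_pow (h.B_ge i (mem_Icc.2 ⟨hi1, by omega⟩)) q
    refine (h6.mul h4).mono ?_
    have h7 : (p : ℝ) ^ m = p ^ i * p ^ (m - i) := by
      rw [← pow_add]
      congr 1
      omega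
    have h8 : (p : ℝ) ^ i * ε' ≤ ε := by
      rw [← hCε]
      refine mul_le_mul_of_nonneg_right ?_ hε'0.le
      have h9 : (p : ℝ) ^ i ≤ p ^ (n' + 1) := pow_le_pow_right₀ hp1.le (by omega)
      have h10 : (0 : ℝ) < (p : ℝ) ^ N := by positivity
      linarith
    have h11 : ((p ^ N : ℕ) : ℝ) * (ν - p ^ i * s - ρ) +
        ((p ^ i : ℕ) : ℝ) * (p ^ N * (s - p ^ (m - i) * ρ) - ε') = T - p ^ i * ε' := by
      rw [hT, h7]
      push_cast
      ring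
    rw [hq, h11]
    linarith
  have t3 : v.Ge (T - ε) ((e * D 1 (D (p ^ m) w) + ∑ i ∈ Icc 1 (n' + 1), B i * vm p D w m i +
      D (p ^ m) κ) ^ q) := by
    refine (ge_pow hrel q).mono ?_
    rw [hT, hq]
    push_cast
    have h8 : (p : ℝ) ^ N * ε' ≤ ε := by
      rw [← hCε]
      refine mul_le_mul_of_nonneg_right ?_ hε'0.le
      have h10 : (0 : ℝ) < (p : ℝ) ^ (n' + 1) := by positivity
      linarith
    nlinarith
  have hvm : vm p D w m (n' + 1) = (D (p ^ j) w) ^ p ^ (n' + 1) := by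
    unfold vm
    rw [if_pos (by omega)]
    have : m - (n' + 1) = j := by omega
    rw [this]
  have hqc : ∀ x y : Ω, (x + y) ^ q = x ^ q + y ^ q := fun x y => by
    rw [hq]
    exact add_pow_char_pow x y p N
  have hsum : (∑ i ∈ Icc 1 n', B i * vm p D w m i) ^ q = ∑ i ∈ Icc 1 n', B i ^ q * vm p D w m i ^ q := by
    rw [hq, sum_pow_char_pow]
    exact sum_congr rfl fun i _ => mul_pow _ _ _
  have t4 : v.Ge (T - ε) (Bn ^ q * ((D (p ^ j) w) ^ p ^ (n' + 1)) ^ q + F₁) := by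
    have e1 : Bn ^ q * ((D (p ^ j) w) ^ p ^ (n' + 1)) ^ q + F₁ =
        (e * D 1 (D (p ^ m) w) + ∑ i ∈ Icc 1 (n' + 1), B i * vm p D w m i + D (p ^ m) κ) ^ q -
        (e ^ q * (D 1 (D (p ^ m) w)) ^ q - e ^ q * D q (f m)) -
        ∑ i ∈ Icc 1 n', (B i ^ q * vm p D w m i ^ q - B i ^ q * f (m - i) ^ p ^ i) := by
      rw [sum_Icc_succ_top (by omega), hqc, hqc, hqc, hsum, hvm, mul_pow, mul_pow, hF₁, hBn,
        sum_sub_distrib]
      ring
    rw [e1]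
    exact (t3.sub t1).sub (RVal.Ge.sum _ _ t2)
  -- division
  have hBq : Bn ^ q ≠ 0 := pow_ne_zero _ h.B_ne
  have e2 : Bn ^ q * ((D (p ^ j) w) ^ p ^ (N + (n' + 1)) - -F₁ / Bn ^ q) =
      Bn ^ q * ((D (p ^ j) w) ^ p ^ (n' + 1)) ^ q + F₁ := by
    rw [mul_sub, mul_div_cancel₀ _ hBq, ← pow_mul, hq, ← pow_add, add_comm N]
    ring
  rw [← e2] at t4
  intro hne
  have h5 := t4 (mul_ne_zero hBq hne)
  rw [v.map_mul hBq hne, v.map_pow h.B_ne, hBn, h.B_val, hq] at h5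
  rw [hT] at h5
  have h6 : (p : ℝ) ^ m = p ^ j * p ^ (n' + 1) := by rw [← pow_add]
  rw [h6] at h5
  push_cast at h5
  rw [pow_add (p : ℝ) N]
  nlinarith

end Main

section Final

variable [IsAlgClosed Ω] {z : Ω}

/-- The end of the proof: a contradiction. -/
theorem Dat.false {e : Ω} {n : ℕ} {B : ℕ → Ω} (h : Dat p v F ρ s ν D e n B e₀ η) {κ θ₀ : Ω}
    (hz : TL v F z s) (hκF : κ ∈ F) (hθ₀ : θ₀ ∈ F)
    (hR : ∀ ε : ℝ, 0 < ε → ∃ δ : ℝ, 0 < δ ∧ ∀ θ ∈ F, v.Ge (s - δ) (z - θ) →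
      v.Ge (s - e₀) (θ - θ₀) ∧
      v.Ge (ν - ρ - ε) (e * D 1 (θ - θ₀) + ∑ i ∈ Icc 1 n, B i * (θ - θ₀) ^ p ^ i + κ)) :
    False := by
  have hF := h.fb
  have hp0 : (0 : ℝ) < p := by exact_mod_cast hp.out.pos
  have hp1 : (1 : ℝ) < p := by exact_mod_cast hp.out.one_lt
  -- large orders
  obtain ⟨L, hL⟩ := hF.oi κ hκF (ν - ρ)
  have hbase : ∀ m : ℕ, max n L ≤ m → ∃ N : ℕ, ∃ f ∈ F, Att p v F ρ s D z θ₀ m N f := by
    intro m hm
    refine ⟨0, 0, F.zero_mem, fun ε hε => ?_⟩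
    obtain ⟨δ, hδ, h1⟩ := hR ε hε
    refine ⟨δ, hδ, fun θ hθ hzθ => ?_⟩
    obtain ⟨h2, h3⟩ := h1 θ hθ hzθ
    have h4 := h.large p (sub_mem hθ hθ₀) h2 hκF hε h3 (le_max_left n L) (fun m' hm' => by
      have h5 := hL (p ^ m') ((le_max_right n L).trans (hm'.trans (Nat.lt_pow_self hp.out.one_lt).le))
      refine h5.mono ?_
      push_cast
      exact le_rfl) m hm
    have e1 : (D (p ^ m) (θ - θ₀)) ^ p ^ 0 - 0 = D (p ^ m) (θ - θ₀) := by
      rw [pow_zero, pow_one, sub_zero]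
    rw [e1]
    refine h4.mono ?_
    rw [pow_zero, one_mul]
  -- the descent
  have hall : ∀ c m : ℕ, max n L ≤ m + c → ∃ N : ℕ, ∃ f ∈ F, Att p v F ρ s D z θ₀ m N f := by
    intro c
    induction c with
    | zero => exact fun m hm => hbase m hm
    | succ c ih =>
      intro m hm
      refine h.descent p hκF hθ₀ hR m fun m' hm' => ih m' (by omega)
  obtain ⟨N, f, hf, hatt⟩ := hall (max n L) 0 (by omega)
  -- the polynomial
  set q := p ^ N with hq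
  set cst := e ^ q * f + κ ^ q with hcst
  set H : Polynomial Ω := ∑ i ∈ Icc 1 n, Polynomial.C (B i ^ q) * (X - Polynomial.C θ₀) ^ (p ^ i * q) +
    Polynomial.C cst with hH
  have hHF : H ∈ PI F := by
    refine add_mem (sum_mem fun i hi => mul_mem (C_mem_PI (pow_mem (h.B_mem i hi) _))
      (pow_mem (sub_mem X_mem_PI (C_mem_PI hθ₀)) _)) (C_mem_PI ?_)
    exact add_mem (mul_mem (pow_mem h.e_mem _) hf) (pow_mem hκF _)
  -- the leading coefficient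
  have hqpos : 0 < q := pow_pos hp.out.pos _
  have hcoef : (taylor z H).coeff (p ^ n * q) = B n ^ q := by
    have h1 : taylor z H = ∑ i ∈ Icc 1 n, Polynomial.C (B i ^ q) *
        (X + Polynomial.C (z - θ₀)) ^ (p ^ i * q) + Polynomial.C cst := by
      rw [hH, map_add, map_sum, taylor_C]
      congr 1
      refine sum_congr rfl fun i _ => ?_
      rw [taylor_mul, taylor_C, taylor_pow, map_sub, taylor_X, taylor_C, C_sub]
      congr 2
      ring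
    have hne : ∀ i ∈ Icc 1 n, i ≠ n → p ^ i * q < p ^ n * q := fun i hi hin =>
      Nat.mul_lt_mul_of_pos_right (Nat.pow_lt_pow_right hp.out.one_lt
        (lt_of_le_of_ne (mem_Icc.1 hi).2 hin)) hqpos
    have hdeg : ∀ m : ℕ, ((X + Polynomial.C (z - θ₀)) ^ m).natDegree = m := fun m => by
      rw [natDegree_pow, natDegree_X_add_C, mul_one]
    rw [h1, coeff_add, coeff_C_of_ne_zero (by
      have : 0 < p ^ n * q := Nat.mul_pos (pow_pos hp.out.pos _) hqpos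
      omega), add_zero, finsetSum_coeff, sum_eq_single n]
    · rw [coeff_C_mul]
      have h2 : ((X + Polynomial.C (z - θ₀)) ^ (p ^ n * q)).coeff (p ^ n * q) = 1 := by
        have h3 := ((monic_X_add_C (z - θ₀)).pow (p ^ n * q)).coeff_natDegree
        rwa [hdeg] at h3
      rw [h2, mul_one]
    · intro i hi hin
      rw [coeff_C_mul, coeff_eq_zero_of_natDegree_lt, mul_zero]
      rw [hdeg]
      exact hne i hi hin
    · intro h2
      exact absurd (mem_Icc.2 ⟨h.n_pos, le_rfl⟩) h2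
  have hBq : B n ^ q ≠ 0 := pow_ne_zero _ h.B_ne
  have hH0 : H ≠ 0 := by
    intro h0
    rw [h0, map_zero, coeff_zero] at hcoef
    exact hBq hcoef.symm
  have hHa : H ∈ PI (TWM.algc F) := PI_mono (le_algc F) hHF
  -- the value at `z`
  have hval : v.Ge (p ^ N * (ν - ρ)) (H.eval z) := by
    refine ge_of_eps fun ε hε => ?_
    obtain ⟨δ₀, hδ₀, h1⟩ := hz.near_val hHa hH0
    set ε' := ε / (p ^ N + 1) with hε'
    have hε'0 : 0 < ε' := by positivity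
    have hε1 : (p : ℝ) ^ N * ε' ≤ ε := by
      rw [hε', mul_div_assoc', div_le_iff₀ (by positivity)]
      nlinarith
    have hε2 : ε' ≤ ε := by
      rw [hε', div_le_iff₀ (by positivity)]
      have : (0 : ℝ) < (p : ℝ) ^ N := by positivity
      nlinarith
    obtain ⟨δ₁, hδ₁, h2⟩ := hR ε' hε'0
    obtain ⟨δ₂, hδ₂, h3⟩ := hatt ε' hε'0
    obtain ⟨θ, hθ, h4⟩ := hz.lim (min δ₀ (min δ₁ δ₂)) (lt_min hδ₀ (lt_min hδ₁ hδ₂))
    have h5 := h1 θ (h4.mono (by linarith [min_le_left δ₀ (min δ₁ δ₂)]))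
    obtain ⟨-, h6⟩ := h2 θ hθ (h4.mono (by
      linarith [(min_le_right δ₀ (min δ₁ δ₂)).trans (min_le_left δ₁ δ₂)]))
    have h7 := h3 θ hθ (h4.mono (by
      linarith [(min_le_right δ₀ (min δ₁ δ₂)).trans (min_le_right δ₁ δ₂)]))
    rw [pow_zero] at h7
    have h8 : v.Ge (p ^ N * (ν - ρ) - ε) (H.eval θ) := by
      have e1 : H.eval θ = (e * D 1 (θ - θ₀) + ∑ i ∈ Icc 1 n, B i * (θ - θ₀) ^ p ^ i + κ) ^ q -
          e ^ q * ((D 1 (θ - θ₀)) ^ p ^ N - f) := by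
        have hqc : ∀ x y : Ω, (x + y) ^ q = x ^ q + y ^ q := fun x y => by
          rw [hq]
          exact add_pow_char_pow x y p N
        have hsum : (∑ i ∈ Icc 1 n, B i * (θ - θ₀) ^ p ^ i) ^ q =
            ∑ i ∈ Icc 1 n, B i ^ q * (θ - θ₀) ^ (p ^ i * q) := by
          rw [hq, sum_pow_char_pow]
          exact sum_congr rfl fun i _ => by rw [mul_pow, ← pow_mul]
        rw [hqc, hqc, hsum, mul_pow, hH, eval_add, eval_finsetSum, eval_C, hcst, ← hq]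
        simp only [eval_mul, eval_C, eval_pow, eval_sub, eval_X]
        ring
      rw [e1]
      refine RVal.Ge.sub ?_ ?_
      · refine (ge_pow h6 q).mono ?_
        rw [hq]
        push_cast
        nlinarith
      · refine ((ge_pow h.e_ge q).mul h7).mono ?_
        rw [hq]
        push_cast
        nlinarith
    intro h9
    rw [← h5.2]
    exact h8 h5.1
  have h1 := hz.strict hHa hH0 (l := p ^ n * q) (Nat.mul_pos (pow_pos hp.out.pos _) hqpos)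
  rw [hcoef] at h1
  have h2 := h1 hBq
  rw [v.map_pow h.B_ne, h.B_val] at h2
  have h3 := hval (hz.eval_ne hHa hH0)
  rw [hq] at h2
  push_cast at h2
  nlinarith

/-- **LEMMA M**: no hit is movable in the base. -/
theorem lemM (hF : Fbr v F ρ D) (hz : TL v F z s) {e a₀ : Ω} (he : e ∈ F) (hev : v.Ge (ν - s) e)
    (ha₀ : a₀ ∈ F) {N : ℕ} {A : ℕ → Ω} (hA : ∀ i ∈ Icc 1 N, A i ∈ F)
    (hlo : ∀ i ∈ Icc 1 N, ∀ ε : ℝ, 0 < ε → ∃ g ∈ F, v.Ge (ν - p ^ i * s - ε) (A i - g ^ p))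
    (hst : ∀ ε : ℝ, 0 < ε → ∃ δ : ℝ, 0 < δ ∧ ∀ θ ∈ F, v.Ge (s - δ) (z - θ) →
      ∃ g ∈ F, v.Ge (ν - ε) (e * θ + ∑ i ∈ Icc 1 N, A i * θ ^ p ^ i + a₀ - g ^ p)) :
    ∀ i ∈ Icc 1 N, Gt v (ν - p ^ i * s - ρ) (D 1 (A i)) := by
  classical
  have hp0 : (0 : ℝ) < p := by exact_mod_cast hp.out.pos
  have hp1 : (1 : ℝ) < p := by exact_mod_cast hp.out.one_lt
  by_contra hcon
  push Not at hcon
  -- the derivative of a `p`-th power
  have hDp : ∀ g ∈ F, D 1 (g ^ p) = 0 := by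
    intro g hg
    have h1 := hF.toHSd.pow_zero p hg 1 1 (by
      rw [pow_one]
      exact hp.out.one_lt.not_ge ∘ Nat.le_of_dvd one_pos)
    rwa [pow_one] at h1
  have hDpp : ∀ g ∈ F, ∀ i : ℕ, 1 ≤ i → D 1 (g ^ p ^ i) = 0 := by
    intro g hg i hi
    refine hF.toHSd.pow_zero p hg i 1 fun h1 => ?_
    have h2 := Nat.le_of_dvd one_pos h1
    have h3 : 1 < p ^ i := Nat.one_lt_pow (by omega) hp.out.one_lt
    omega
  -- bounds for the derivatives of the `A i`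
  have hDA : ∀ i ∈ Icc 1 N, v.Ge (ν - p ^ i * s - ρ) (D 1 (A i)) := by
    intro i hi
    refine ge_of_eps fun ε hε => ?_
    obtain ⟨g, hg, h1⟩ := hlo i hi ε hε
    have h2 := hF.norm 1 (sub_mem (hA i hi) (pow_mem hg p)) h1
    rw [hF.toHSd.sub 1 (hA i hi) (pow_mem hg p), hDp g hg, sub_zero] at h2
    refine h2.mono ?_
    push_cast
    linarith
  -- the largest movable hit
  set Λ := (Icc 1 N).filter fun i => ¬ Gt v (ν - p ^ i * s - ρ) (D 1 (A i)) with hΛ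
  have hne : Λ.Nonempty := by
    obtain ⟨i, hi, h1⟩ := hcon
    exact ⟨i, mem_filter.2 ⟨hi, h1⟩⟩
  set n := Λ.max' hne with hn
  have hnΛ : n ∈ Λ := Λ.max'_mem hne
  have hnN : n ∈ Icc 1 N := (mem_filter.1 hnΛ).1
  have hnn := mem_Icc.1 hnN
  obtain ⟨B, hB⟩ : ∃ B : ℕ → Ω, B = fun i => if i ∈ Λ then D 1 (A i) else 0 := ⟨_, rfl⟩
  have hBn : B n = D 1 (A n) := by rw [hB]; exact if_pos hnΛ
  have hBm : ∀ i ∈ Icc 1 n, B i ∈ F := by
    intro i hi
    rw [hB]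
    beta_reduce
    split_ifs with h1
    · exact hF.mem 1 _ (hA i (mem_filter.1 h1).1)
    · exact F.zero_mem
  have hBge : ∀ i ∈ Icc 1 n, v.Ge (ν - p ^ i * s - ρ) (B i) := by
    intro i hi
    rw [hB]
    beta_reduce
    split_ifs with h1
    · exact hDA i (mem_filter.1 h1).1
    · exact RVal.Ge.zero
  have hBne : B n ≠ 0 ∧ v (B n) = ν - p ^ n * s - ρ := by
    have h1 : ¬ Gt v (ν - p ^ n * s - ρ) (D 1 (A n)) := (mem_filter.1 hnΛ).2
    unfold Gt at h1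
    push Not at h1
    obtain ⟨h2, h3⟩ := h1
    rw [hBn]
    exact ⟨h2, le_antisymm h3 (hDA n hnN h2)⟩
  -- margins
  have hmin : ∀ (S : Finset ℕ) (P : ℕ → ℝ → Prop), (∀ i ∈ S, ∃ η : ℝ, 0 < η ∧ P i η) →
      (∀ i ∈ S, ∀ η η' : ℝ, η' ≤ η → P i η → P i η') → ∃ η : ℝ, 0 < η ∧ ∀ i ∈ S, P i η := by
    intro S P h1 h2
    induction S using Finset.induction_on with
    | empty => exact ⟨1, one_pos, by simp⟩
    | insert a S ha ih =>
      obtain ⟨η, hη, h3⟩ := ih (fun i hi => h1 i (mem_insert_of_mem hi))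
        (fun i hi => h2 i (mem_insert_of_mem hi))
      obtain ⟨η', hη', h4⟩ := h1 a (mem_insert_self a S)
      refine ⟨min η η', lt_min hη hη', fun i hi => ?_⟩
      rcases mem_insert.1 hi with rfl | hi
      · exact h2 _ (mem_insert_self _ S) _ _ (min_le_right _ _) h4
      · exact h2 i (mem_insert_of_mem hi) _ _ (min_le_left _ _) (h3 i hi)
  obtain ⟨η₁, hη₁, h1⟩ := hF.margin he hev
  obtain ⟨η₂, hη₂, h2⟩ := hmin (Icc 1 n)
    (fun i η => ∀ j : ℕ, j ≠ 0 → v.Ge (ν - p ^ i * s - ρ - j * ρ + η) (D j (B i)))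
    (fun i hi => hF.margin (hBm i hi) (hBge i hi))
    (fun i _ η η' h3 h4 j hj => (h4 j hj).mono (by linarith))
  obtain ⟨η₃, hη₃, h3⟩ := hmin ((Icc 1 N).filter fun i => Gt v (ν - p ^ i * s - ρ) (D 1 (A i)))
    (fun i η => v.Ge (ν - p ^ i * s - ρ + η) (D 1 (A i)))
    (fun i hi => exists_ge_of_gt (mem_filter.1 hi).2)
    (fun i _ η η' h4 h5 => h5.mono (by linarith))
  set η := min η₁ (min η₂ η₃) with hη
  have hη0 : 0 < η := lt_min hη₁ (lt_min hη₂ hη₃)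
  have hηa : η ≤ η₁ := min_le_left _ _
  have hηb : η ≤ η₂ := (min_le_right _ _).trans (min_le_left _ _)
  have hηc : η ≤ η₃ := (min_le_right _ _).trans (min_le_right _ _)
  set e₀ := η / p ^ N with he₀
  have he₀0 : 0 < e₀ := by positivity
  have hpe : ∀ i : ℕ, i ≤ N → (p : ℝ) ^ i * e₀ ≤ η := by
    intro i hi
    have h4 : (p : ℝ) ^ i ≤ p ^ N := pow_le_pow_right₀ hp1.le hi
    have h5 : (p : ℝ) ^ N * e₀ = η := by rw [he₀]; field_simp
    rw [← h5]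
    exact mul_le_mul_of_nonneg_right h4 he₀0.le
  obtain ⟨θ₀, hθ₀, hzθ₀⟩ := hz.lim e₀ he₀0
  -- the function `a`
  set af : Ω → Ω := fun θ => e * θ + ∑ i ∈ Icc 1 N, A i * θ ^ p ^ i + a₀ with haf
  have hafm : ∀ θ ∈ F, af θ ∈ F := fun θ hθ => add_mem (add_mem (mul_mem he hθ)
    (sum_mem fun i hi => mul_mem (hA i hi) (pow_mem hθ _))) ha₀
  set κ := D 1 (af θ₀) with hκ
  have hκF : κ ∈ F := hF.mem 1 _ (hafm θ₀ hθ₀)
  have hDaf : ∀ w ∈ F, D 1 (af (θ₀ + w)) = κ + (D 1 e * w + e * D 1 w) +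
      ∑ i ∈ Icc 1 N, D 1 (A i) * w ^ p ^ i := by
    intro w hw
    have h4 : af (θ₀ + w) = af θ₀ + e * w + ∑ i ∈ Icc 1 N, A i * w ^ p ^ i := by
      rw [haf]
      beta_reduce
      have h5 : ∑ i ∈ Icc 1 N, A i * (θ₀ + w) ^ p ^ i = ∑ i ∈ Icc 1 N, A i * θ₀ ^ p ^ i +
          ∑ i ∈ Icc 1 N, A i * w ^ p ^ i := by
        rw [← sum_add_distrib]
        exact sum_congr rfl fun i _ => by rw [add_pow_char_pow, mul_add]
      rw [h5]
      ring
    have h5 : ∀ i ∈ Icc 1 N, A i * w ^ p ^ i ∈ F := fun i hi => mul_mem (hA i hi) (pow_mem hw _)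
    have h1F : ∀ x ∈ F, ∀ y ∈ F, D 1 (x * y) = D 1 x * y + x * D 1 y := by
      intro x hx y hy
      rw [hF.mul 1 x hx y hy]
      have h6 : (Finset.HasAntidiagonal.antidiagonal 1 : Finset (ℕ × ℕ)) = {(0, 1), (1, 0)} := by
        decide
      rw [h6, sum_pair (by decide), hF.c0 x hx, hF.c0 y hy]
      ring
    rw [h4, hF.add 1 _ (add_mem (hafm θ₀ hθ₀) (mul_mem he hw)) _ (sum_mem h5),
      hF.add 1 _ (hafm θ₀ hθ₀) _ (mul_mem he hw), h1F e he w hw, hF.toHSd.sum 1 _ _ h5]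
    congr 1
    refine sum_congr rfl fun i hi => ?_
    rw [h1F _ (hA i hi) _ (pow_mem hw _), hDpp w hw i (mem_Icc.1 hi).1, mul_zero, add_zero]
  -- the data
  have hdat : Dat p v F ρ s ν D e n B e₀ η :=
    { fb := hF
      e_mem := he
      e_ge := hev
      e_mar := fun a ha => (h1 a ha).mono (by linarith)
      B_mem := hBm
      B_ge := hBge
      B_mar := fun i hi a ha => (h2 i hi a ha).mono (by linarith)
      n_pos := hnn.1
      B_ne := hBne.1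
      B_val := hBne.2
      e₀_nn := he₀0.le
      mar := hpe n hnn.2 }
  refine hdat.false p hz hκF hθ₀ fun ε hε => ?_
  obtain ⟨δ, hδ, h4⟩ := hst ε hε
  refine ⟨min δ e₀, lt_min hδ he₀0, fun θ hθ hzθ => ?_⟩
  have hwv : v.Ge (s - e₀) (θ - θ₀) := by
    have h5 : θ - θ₀ = (z - θ₀) - (z - θ) := by ring
    rw [h5]
    exact hzθ₀.sub (hzθ.mono (by linarith [min_le_right δ e₀]))
  refine ⟨hwv, ?_⟩
  set w := θ - θ₀ with hw
  have hwF : w ∈ F := sub_mem hθ hθ₀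
  obtain ⟨g, hg, h5⟩ := h4 θ hθ (hzθ.mono (by linarith [min_le_left δ e₀]))
  -- the derivative of `a θ`
  have h6 : v.Ge (ν - ρ - ε) (D 1 (af θ)) := by
    have h7 := hF.norm 1 (sub_mem (hafm θ hθ) (pow_mem hg p)) (b := ν - ε) h5
    rw [hF.toHSd.sub 1 (hafm θ hθ) (pow_mem hg p), hDp g hg, sub_zero] at h7
    refine h7.mono ?_
    push_cast
    linarith
  have h7 : θ = θ₀ + w := by rw [hw]; ring
  rw [h7, hDaf w hwF] at h6
  -- the negligible terms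
  have h8 : v.Ge (ν - ρ - ε) (D 1 e * w) := by
    refine ((h1 1 one_ne_zero).mul hwv).mono ?_
    have h9 := hpe 0 (Nat.zero_le _)
    rw [pow_zero, one_mul] at h9
    push_cast
    linarith
  have h9 : ∀ i ∈ (Icc 1 N).filter (fun i => Gt v (ν - p ^ i * s - ρ) (D 1 (A i))),
      v.Ge (ν - ρ - ε) (D 1 (A i) * w ^ p ^ i) := by
    intro i hi
    refine ((h3 i hi).mul (ge_pow hwv (p ^ i))).mono ?_
    have h10 := hpe i (mem_Icc.1 (mem_filter.1 hi).1).2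
    push_cast
    nlinarith
  have h10 : ∑ i ∈ Icc 1 N, D 1 (A i) * w ^ p ^ i =
      ∑ i ∈ Icc 1 n, B i * w ^ p ^ i +
        ∑ i ∈ (Icc 1 N).filter (fun i => Gt v (ν - p ^ i * s - ρ) (D 1 (A i))),
          D 1 (A i) * w ^ p ^ i := by
    rw [← sum_filter_add_sum_filter_not (Icc 1 N)
      (fun i => Gt v (ν - p ^ i * s - ρ) (D 1 (A i))), add_comm]
    congr 1
    change ∑ i ∈ Λ, _ = _
    have h11 : ∑ i ∈ Λ, D 1 (A i) * w ^ p ^ i = ∑ i ∈ Λ, B i * w ^ p ^ i := by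
      refine sum_congr rfl fun i hi => ?_
      rw [hB]
      beta_reduce
      rw [if_pos hi]
    rw [h11]
    refine sum_subset (fun i hi => mem_Icc.2 ⟨(mem_Icc.1 (mem_filter.1 hi).1).1,
      Λ.le_max' i hi⟩) fun i _ hi => ?_
    rw [hB]
    beta_reduce
    rw [if_neg hi, zero_mul]
  have h11 : e * D 1 w + ∑ i ∈ Icc 1 n, B i * w ^ p ^ i + κ =
      (κ + (D 1 e * w + e * D 1 w) + ∑ i ∈ Icc 1 N, D 1 (A i) * w ^ p ^ i) - D 1 e * w -
        ∑ i ∈ (Icc 1 N).filter (fun i => Gt v (ν - p ^ i * s - ρ) (D 1 (A i))),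
          D 1 (A i) * w ^ p ^ i := by
    rw [h10]
    ring
  rw [h11]
  exact (h6.sub h8).sub (RVal.Ge.sum _ _ h9)

end Final

end Pool.Agent.TWLM
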