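import Pool.Agent.Lib.TWLM.Fib

/-!
# TANK W, Lemma M: dense and polynomial forms
-/

set_option autoImplicit false

open Polynomial Finset

namespace Pool.Agent.TWLM

open Pool.Agent.H15JM (RVal)
open Pool.Agent.TWM

universe u

variable {k Ω : Type u} [Field k] [Field Ω] [Algebra k Ω] {v : RVal Ω}
  {C F : IntermediateField k Ω} {w z : Ω} {ρ s ν : ℝ} {D : ℕ → Ω → Ω} (p : ℕ) [hp : Fact p.Prime]
  [CharP Ω p] [IsAlgClosed Ω]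

/-- **LEMMA M**, the hypothesis only on a dense set. -/
theorem lemM_dense (hF : Fbr v F ρ D) (hz : TL v F z s) {e a₀ : Ω} (he : e ∈ F)
    (hev : v.Ge (ν - s) e) (ha₀ : a₀ ∈ F) {N : ℕ} {A : ℕ → Ω} (hA : ∀ i ∈ Icc 1 N, A i ∈ F)
    (hlo : ∀ i ∈ Icc 1 N, ∀ ε : ℝ, 0 < ε → ∃ g ∈ F, v.Ge (ν - p ^ i * s - ε) (A i - g ^ p))
    {S : Set Ω} (hS : ∀ x ∈ F, ∀ b : ℝ, ∃ y ∈ S, v.Ge b (x - y))
    (hst : ∀ ε : ℝ, 0 < ε → ∃ δ : ℝ, 0 < δ ∧ ∀ θ ∈ S, v.Ge (s - δ) (z - θ) →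
      ∃ g ∈ F, v.Ge (ν - ε) (e * θ + ∑ i ∈ Icc 1 N, A i * θ ^ p ^ i + a₀ - g ^ p)) :
    ∀ i ∈ Icc 1 N, Gt v (ν - p ^ i * s - ρ) (D 1 (A i)) := by
  refine lemM p hF hz he hev ha₀ hA hlo fun ε hε => ?_
  obtain ⟨δ, hδ, h1⟩ := hst ε hε
  refine ⟨δ, hδ, fun θ hθ hzθ => ?_⟩
  -- a uniform bound for the coefficients
  obtain ⟨c, hc0, hce, hcA⟩ : ∃ c : ℝ, 0 ≤ c ∧ v.Ge (-c) e ∧ ∀ i ∈ Icc 1 N, v.Ge (-c) (A i) := by
    refine ⟨|v e| + ∑ i ∈ Icc 1 N, |v (A i)|, by positivity, ?_, fun i hi => ?_⟩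
    · intro _
      have h2 : 0 ≤ ∑ i ∈ Icc 1 N, |v (A i)| := sum_nonneg fun i _ => abs_nonneg _
      linarith [neg_abs_le (v e)]
    · intro _
      have h2 : |v (A i)| ≤ ∑ i ∈ Icc 1 N, |v (A i)| :=
        single_le_sum (f := fun i => |v (A i)|) (fun i _ => abs_nonneg _) hi
      linarith [neg_abs_le (v (A i)), abs_nonneg (v e)]
  obtain ⟨y, hy, h2⟩ := hS θ hθ (max (max 0 (s - δ)) (|ν| + c))
  have hb0 : v.Ge (s - δ) (θ - y) := h2.mono ((le_max_right _ _).trans (le_max_left _ _))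
  have hb1 : (0 : ℝ) ≤ max (max 0 (s - δ)) (|ν| + c) := (le_max_left _ _).trans (le_max_left _ _)
  have hb2 : |ν| + c ≤ max (max 0 (s - δ)) (|ν| + c) := le_max_right _ _
  set b := max (max 0 (s - δ)) (|ν| + c) with hb
  obtain ⟨g, hg, h3⟩ := h1 y hy (by
    have e1 : z - y = (z - θ) + (θ - y) := by ring
    rw [e1]
    exact hzθ.add hb0)
  refine ⟨g, hg, ?_⟩
  have e1 : e * θ + ∑ i ∈ Icc 1 N, A i * θ ^ p ^ i + a₀ - g ^ p =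
      (e * y + ∑ i ∈ Icc 1 N, A i * y ^ p ^ i + a₀ - g ^ p) + (e * (θ - y) +
        ∑ i ∈ Icc 1 N, A i * (θ - y) ^ p ^ i) := by
    have h4 : ∑ i ∈ Icc 1 N, A i * (θ - y) ^ p ^ i = ∑ i ∈ Icc 1 N, A i * θ ^ p ^ i -
        ∑ i ∈ Icc 1 N, A i * y ^ p ^ i := by
      rw [← sum_sub_distrib]
      exact sum_congr rfl fun i _ => by rw [sub_pow_char_pow, mul_sub]
    rw [h4]
    ring
  rw [e1]
  refine h3.add (((hce.mul h2).mono ?_).add (RVal.Ge.sum _ _ fun i hi => ?_))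
  · linarith [le_abs_self ν]
  · refine ((hcA i hi).mul (ge_pow h2 (p ^ i))).mono ?_
    have h4 : (1 : ℝ) ≤ ((p ^ i : ℕ) : ℝ) := by
      exact_mod_cast Nat.one_le_pow _ _ hp.out.pos
    have h5 : b ≤ ((p ^ i : ℕ) : ℝ) * b := le_mul_of_one_le_left hb1 h4
    linarith [le_abs_self ν]

/-- **LEMMA M** for the closure of `C(w)`, polynomial form. -/
theorem lemM_poly (hΩ : CompleteV v) (hw : TL v C w ρ) (hz : TL v (cadj v C w) z s) {e : Ω}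
    (he : e ∈ cadj v C w) (hev : v.Ge (ν - s) e) {B : Polynomial Ω} (hB : B ∈ PI C) {N : ℕ}
    {A : ℕ → Polynomial Ω} (hA : ∀ i ∈ Icc 1 N, A i ∈ PI C)
    (hlo : ∀ i ∈ Icc 1 N, ∀ ε : ℝ, 0 < ε →
      ∃ g ∈ cadj v C w, v.Ge (ν - p ^ i * s - ε) ((A i).eval w - g ^ p))
    (hst : ∀ ε : ℝ, 0 < ε → ∃ δ : ℝ, 0 < δ ∧ ∀ θ ∈ PI C, v.Ge (s - δ) (z - θ.eval w) →
      ∃ g ∈ cadj v C w, v.Ge (ν - ε)
        (e * θ.eval w + ∑ i ∈ Icc 1 N, (A i).eval w * (θ.eval w) ^ p ^ i + B.eval w - g ^ p)) :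
    ∀ i ∈ Icc 1 N, Gt v (ν - p ^ i * s - ρ) ((derivative (A i)).eval w) := by
  obtain ⟨D, hF, hD, -, -⟩ := exists_fbr hΩ hw
  intro i hi
  have h1 := lemM_dense p hF hz he hev (eval_mem_cadj hB) (A := fun i => (A i).eval w)
    (fun i hi => eval_mem_cadj (hA i hi)) hlo (S := {x | ∃ θ ∈ PI C, θ.eval w = x})
    (fun x hx b => by
      obtain ⟨f, hf, h2⟩ := hw.dense hx b
      exact ⟨_, ⟨f, hf, rfl⟩, h2⟩)
    (fun ε hε => by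
      obtain ⟨δ, hδ, h2⟩ := hst ε hε
      refine ⟨δ, hδ, ?_⟩
      rintro _ ⟨θ, hθ, rfl⟩ h3
      exact h2 θ hθ h3) i hi
  rwa [hD 1 _ (hA i hi), hasseDeriv_one'] at h1

end Pool.Agent.TWLM
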